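import Pool.Agent.TH827.CG.Final

/-!
# Average size of p-torsion in quadratic class groups (MP_16912e_nt)

A lower bound for the sum of the nontrivial `p`-torsion of the class groups of the imaginary
quadratic fields `ℚ(√(-d))`, `d ≤ X` squarefree, for every integer `p ≥ 5` (in particular for
every prime `p ≥ 5`).
-/

namespace Pool.Agent.Results.MP_16912e_nt.PTorsionLowerBound

open NumberField

/-- Let `p ≥ 5` and let `F d` be the number of the ideal classes `c` with `c ^ p = 1` of the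
imaginary quadratic field `ℚ(√(-d))`, for every squarefree `d > 0`. Then the sum of `F d - 1` over
the squarefree `d ≤ X` is at least `X ^ min(1/2 + 2/p, 3/4) / (log X)^5` for all large `X`, and
at least `X ^ (1/2 + 2/p) / (log X)^5` for arbitrarily large `X`. -/
theorem result (p : ℕ) (hp5 : 5 ≤ p) (F : ℕ → ℕ)
    (hF : ∀ d : ℕ, 0 < d → Squarefree d → ∀ (K : Type) [Field K] [NumberField K],
      Module.finrank ℚ K = 2 → (∃ x : K, x ^ 2 = -(d : K)) →
        F d = Nat.card {c : ClassGroup (𝓞 K) // c ^ p = 1}) :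
    (∃ X₀ : ℕ, ∀ X : ℕ, X₀ ≤ X →
      (X : ℝ) ^ (min (1 / 2 + 2 / (p : ℝ)) (3 / 4)) / (Real.log X) ^ 5 ≤
        ∑ d ∈ (Finset.Icc 1 X).filter Squarefree, ((F d : ℝ) - 1)) ∧
    (∀ X₀ : ℕ, ∃ X : ℕ, X₀ ≤ X ∧
      (X : ℝ) ^ (1 / 2 + 2 / (p : ℝ)) / (Real.log X) ^ 5 ≤
        ∑ d ∈ (Finset.Icc 1 X).filter Squarefree, ((F d : ℝ) - 1)) :=
  ⟨TH827.CG.all_large hp5 hF, TH827.CG.inf_often hp5 hF⟩

end Pool.Agent.Results.MP_16912e_nt.PTorsionLowerBound
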