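import Pool.Agent.H568.TS.Fin

/-!
# The average of the `l`-torsion of the class groups of imaginary quadratic fields in short intervals

For odd `l ≥ 3` the average of `#Cl(-D)[l]` over the discriminants `-D` with `X < D ≤ X + H` is at most
`X^(1/2+ε) (H √X)^(-1/(l+1))`, for *every* interval of length `X^(1/(l-1)) ≤ H ≤ X`. For `H = X` this is the
bound `X^(1/2 - 3/(2l+2) + ε)` of Heath-Brown and Pierce for the full average.

Proof. Let `P` be the set of the odd primes below `Z = (H √X)^(1/(l+1))`. By the inequality of Pólya and
Vinogradov at most `H/|P| + Z^(1+ε)` discriminants of the interval do not split about half of the primes in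
`P`. For the other ones two different primes in the same coset of `Cl[l]` give a representation
`t² + m² D = 4 (p q)^l` with `m ≠ 0`, and one without a common factor after a descent. For given `p, q, m` the
values of `t` lie in an interval of length `m √H` and in few residue classes modulo `m²` (up to a factor `4`),
which bounds the sum over `D` of the number of such pairs.
-/

set_option autoImplicit false

namespace Pool.Agent.Results.MP_16912e_nt.TorsionAverageShortIntervals

open Finset NumberField
open scoped Classical

/-- The number of ideal classes killed by `l` of the quadratic field of discriminant `d`. Quadratic fields with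
the same discriminant are isomorphic, so the set has at most one element; if `d` is not the discriminant of a
quadratic field then `tors l d = 0`. -/
noncomputable def tors (l : ℕ) (d : ℤ) : ℕ :=
  sSup {n : ℕ | ∃ (K : Type) (_ : Field K) (_ : NumberField K), Module.finrank ℚ K = 2 ∧
    discr K = d ∧ n = Nat.card {c : ClassGroup (𝓞 K) // c ^ l = 1}}

/-- For odd `l` and `ε > 0` and all large `X`: the sum of `#Cl(-D)[l]` over the discriminants `-D` of imaginary
quadratic fields with `X < D ≤ X + H` is at most `H X^(1/2+ε) / (H √X)^(1/(l+1))` if `X^(1/(l-1)) ≤ H ≤ X`. -/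
theorem result (l : ℕ) (hl : Odd l) (ε : ℝ) (hε : 0 < ε) : ∃ X0 : ℕ, ∀ X H : ℕ, X0 ≤ X → H ≤ X →
    X ≤ H ^ (l - 1) → ∑ D ∈ Ioc X (X + H), (tors l (-(D : ℤ)) : ℝ) ≤
      H * (X : ℝ) ^ (1 / 2 + ε) / ((H : ℝ) * √(X : ℝ)) ^ (1 / ((l : ℝ) + 1)) :=
  Pool.Agent.H568.TS.main l hl ε hε

end Pool.Agent.Results.MP_16912e_nt.TorsionAverageShortIntervals
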